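import Pool.Agent.Lib.TG15.Defs
import Pool.Agent.Lib.TGJ_h11.Ram
import Pool.Agent.Lib.TG.Basic

/-!
# TANK G, bridge B → C, row BC9: linear changes of the coordinates

`A` an invertible `n × n` matrix over `k`, `u' = A u`, `g' = (g_0, A (g_1, .., g_n))`.
-/

set_option autoImplicit false

open Module

namespace Pool.Agent.TGBC32

open Pool.Agent.TG (Ov ZDim IsMin ch)
open Pool.Agent.TG15 (smulK bi ix mx bx tup)
open Pool.Agent.TGJ (IsOrd Pres jac Dual rram HasD)

universe u

variable {k K : Type u} [Field k] [Field K] [Algebra k K]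

/-! ### Changes of tuples -/

section Lin

variable {ι M : Type*} [Fintype ι] [AddCommGroup M] [Module k M]

/-- `(A u)_i = ∑_j A_ij u_j`. -/
def lin (A : Matrix ι ι k) (u : ι → M) : ι → M := fun i => ∑ j, A i j • u j

theorem lin_apply (A : Matrix ι ι k) (u : ι → M) (i : ι) : lin A u i = ∑ j, A i j • u j := rfl

theorem lin_one [DecidableEq ι] (u : ι → M) : lin (1 : Matrix ι ι k) u = u := by
  funext i
  rw [lin_apply, Finset.sum_eq_single i]
  · rw [Matrix.one_apply_eq, one_smul]
  · intro j _ hj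
    rw [Matrix.one_apply_ne hj.symm, zero_smul]
  · intro h
    exact absurd (Finset.mem_univ i) h

theorem lin_mul (A B : Matrix ι ι k) (u : ι → M) : lin (A * B) u = lin A (lin B u) := by
  funext i
  simp only [lin_apply, Matrix.mul_apply, Finset.sum_smul, Finset.smul_sum, smul_smul]
  rw [Finset.sum_comm]

theorem lin_inv [DecidableEq ι] {A : Matrix ι ι k} (hA : A.det ≠ 0) (u : ι → M) :
    lin A⁻¹ (lin A u) = u := by
  rw [← lin_mul, Matrix.nonsing_inv_mul _ (isUnit_iff_ne_zero.2 hA), lin_one]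

theorem lin_mem {P : Submodule k M} (A : Matrix ι ι k) {u : ι → M} (hu : ∀ i, u i ∈ P) (i : ι) :
    lin A u i ∈ P := Submodule.sum_mem _ fun j _ => P.smul_mem _ (hu j)

/-- The span does not change. -/
theorem span_lin [DecidableEq ι] {A : Matrix ι ι k} (hA : A.det ≠ 0) (u : ι → M) :
    Submodule.span k (Set.range (lin A u)) = Submodule.span k (Set.range u) := by
  have key : ∀ (B : Matrix ι ι k) (w : ι → M),
      Submodule.span k (Set.range (lin B w)) ≤ Submodule.span k (Set.range w) := by
    intro B w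
    rw [Submodule.span_le]
    rintro _ ⟨i, rfl⟩
    exact lin_mem (P := Submodule.span k (Set.range w)) B
      (fun j => Submodule.subset_span (Set.mem_range_self j)) i
  refine le_antisymm (key A u) ?_
  conv_lhs => rw [← lin_inv hA u]
  exact key _ _

theorem lin_map {M' : Type*} [AddCommGroup M'] [Module k M'] (φ : M →ₗ[k] M') (A : Matrix ι ι k)
    (u : ι → M) : (fun i => φ (lin A u i)) = lin A fun i => φ (u i) := by
  funext i
  rw [lin_apply, map_sum]
  exact Finset.sum_congr rfl fun j _ => map_smul _ _ _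

/-- An alternating map is multiplied by the determinant. -/
theorem alt_lin [DecidableEq ι] {N : Type*} [AddCommGroup N] [Module k N] (q : M [⋀^ι]→ₗ[k] N)
    (A : Matrix ι ι k) (g : ι → M) : q (lin A g) = A.det • q g := by
  let φ : (ι → k) →ₗ[k] M := Fintype.linearCombination k g
  let q₁ : (ι → k) [⋀^ι]→ₗ[k] N := q.compLinearMap φ
  let q₂ : (ι → k) [⋀^ι]→ₗ[k] N :=
    (LinearMap.toSpanSingleton k N (q g)).compAlternatingMap Matrix.detRowAlternating
  have h1 : q₁ = q₂ := by
    refine Basis.ext_alternating (Pi.basisFun k ι) fun v hv => ?_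
    have hb : Function.Bijective v := Finite.injective_iff_bijective.1 hv
    obtain ⟨σ, hσ⟩ : ∃ σ : Equiv.Perm ι, v = σ := ⟨Equiv.ofBijective v hb, rfl⟩
    subst hσ
    have h2 : (fun i => φ ((Pi.basisFun k ι) (σ i))) = fun i => g (σ i) := by
      funext i
      change Fintype.linearCombination k g ((Pi.basisFun k ι) (σ i)) = _
      rw [Pi.basisFun_apply, Fintype.linearCombination_apply_single, one_smul]
    have h3 : q₁ (fun i => (Pi.basisFun k ι) (σ i)) = q (fun i => g (σ i)) := by
      change q (fun i => φ ((Pi.basisFun k ι) (σ i))) = _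
      rw [h2]
    have h4 : q₂ (fun i => (Pi.basisFun k ι) (σ i)) =
        (Matrix.det (fun i => (Pi.basisFun k ι) (σ i))) • q g := rfl
    have h5 : Matrix.det (fun i => (Pi.basisFun k ι) (σ i)) = ((Equiv.Perm.sign σ : ℤ) : k) := by
      have h6 : (fun i => (Pi.basisFun k ι) (σ i)) = (1 : Matrix ι ι k).submatrix σ id := by
        funext i j
        rw [Pi.basisFun_apply, Matrix.submatrix_apply, id, Matrix.one_apply, Pi.single_apply]
        simp only [eq_comm]
      rw [h6, Matrix.det_permute, Matrix.det_one, mul_one]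
    rw [h3, h4, h5]
    have h7 := q.map_perm g σ
    change q (g ∘ σ) = _
    rw [h7]
    rcases Int.units_eq_one_or (Equiv.Perm.sign σ) with h | h
    · rw [h]; simp
    · rw [h]; simp
  have h8 : q₁ A = q₂ A := by rw [h1]
  exact h8

end Lin


/-! ### Tuples `(g_0, g_1, .., g_n)` with `g_0` fixed -/

section Succ

variable {n : ℕ}

/-- `(g_0, A (g_1, .., g_n))`. -/
def linS (A : Matrix (Fin n) (Fin n) k) (g : Fin (n + 1) → K) : Fin (n + 1) → K :=
  Fin.cons (g 0) (lin A fun i => g i.succ)

@[simp] theorem linS_zero (A : Matrix (Fin n) (Fin n) k) (g : Fin (n + 1) → K) :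
    linS A g 0 = g 0 := rfl

@[simp] theorem linS_succ (A : Matrix (Fin n) (Fin n) k) (g : Fin (n + 1) → K) (i : Fin n) :
    linS A g i.succ = lin A (fun i => g i.succ) i := rfl

/-- The block matrix `(1, A)`. -/
def extM (A : Matrix (Fin n) (Fin n) k) : Matrix (Fin (n + 1)) (Fin (n + 1)) k :=
  Matrix.of (Fin.cons (Fin.cons 1 0) fun i => Fin.cons 0 (A i))

theorem extM_zero_zero (A : Matrix (Fin n) (Fin n) k) : extM A 0 0 = 1 := rfl
theorem extM_zero_succ (A : Matrix (Fin n) (Fin n) k) (j : Fin n) : extM A 0 j.succ = 0 := rfl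
theorem extM_succ_zero (A : Matrix (Fin n) (Fin n) k) (i : Fin n) : extM A i.succ 0 = 0 := rfl
theorem extM_succ_succ (A : Matrix (Fin n) (Fin n) k) (i j : Fin n) :
    extM A i.succ j.succ = A i j := rfl

theorem linS_eq (A : Matrix (Fin n) (Fin n) k) (g : Fin (n + 1) → K) :
    linS A g = lin (extM A) g := by
  funext i
  refine Fin.cases ?_ (fun i => ?_) i
  · rw [lin_apply, Fin.sum_univ_succ, extM_zero_zero, one_smul, linS_zero]
    simp [extM_zero_succ]
  · rw [lin_apply, Fin.sum_univ_succ, extM_succ_zero, zero_smul, zero_add, linS_succ, lin_apply]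
    exact Finset.sum_congr rfl fun j _ => by rw [extM_succ_succ]

theorem det_extM (A : Matrix (Fin n) (Fin n) k) : (extM A).det = A.det := by
  rw [Matrix.det_succ_row_zero, Fin.sum_univ_succ]
  have h1 : ∀ i : Fin n, (-1 : k) ^ ((i.succ : Fin (n + 1)) : ℕ) * extM A 0 i.succ *
      ((extM A).submatrix Fin.succ i.succ.succAbove).det = 0 := by
    intro i
    rw [extM_zero_succ, mul_zero, zero_mul]
  rw [Finset.sum_eq_zero fun i _ => h1 i, add_zero, extM_zero_zero]
  have h2 : (extM A).submatrix Fin.succ (Fin.succAbove 0) = A := by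
    ext i j
    rw [Matrix.submatrix_apply, Fin.succAbove_zero, extM_succ_succ]
  rw [h2]
  simp

/-- An alternating map on `(g_0, A (g_1, .., g_n))`. -/
theorem alt_linS (q : K [⋀^Fin (n + 1)]→ₗ[k] K) (A : Matrix (Fin n) (Fin n) k)
    (g : Fin (n + 1) → K) : q (linS A g) = A.det • q g := by
  rw [linS_eq, alt_lin, det_extM]

theorem alt_linS_ne {q : K [⋀^Fin (n + 1)]→ₗ[k] K} {A : Matrix (Fin n) (Fin n) k}
    (hA : A.det ≠ 0) {g : Fin (n + 1) → K} (hg : q g ≠ 0) : q (linS A g) ≠ 0 := by
  rw [alt_linS]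
  exact smul_ne_zero hA hg

/-- The ratios. -/
theorem linS_div (A : Matrix (Fin n) (Fin n) k) (g : Fin (n + 1) → K) (i : Fin n) :
    linS A g i.succ / linS A g 0 = lin A (fun i => g i.succ / g 0) i := by
  rw [linS_succ, linS_zero, lin_apply, lin_apply, Finset.sum_div]
  exact Finset.sum_congr rfl fun j _ => by rw [smul_div_assoc]

end Succ

/-! ### (i) The ideal `b_x` depends only on `q(g)` up to constants -/

section Bx

theorem smulK_smul {c : k} (hc : c ≠ 0) (q : K) (A : Submodule k K) :
    smulK (c • q) A = smulK q A := by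
  have key : ∀ (c : k) (q : K), smulK (c • q) A ≤ smulK q A := by
    rintro c q _ ⟨a, ha, rfl⟩
    refine ⟨c • a, A.smul_mem c ha, ?_⟩
    rw [LinearMap.mulLeft_apply, LinearMap.mulLeft_apply, smul_mul_assoc, mul_smul_comm]
  refine le_antisymm (key c q) ?_
  have h1 := key c⁻¹ (c • q)
  rwa [smul_smul, inv_mul_cancel₀ hc, one_smul] at h1

theorem bi_smul {c : k} (hc : c ≠ 0) (H A : Submodule k K) (i : ℕ) (q : K) :
    bi H A i (c • q) = bi H A i q := by
  rw [bi, bi, smulK_smul hc]

theorem bx_smul {c : k} (hc : c ≠ 0) (L H : Submodule k K) (M : ℕ) (f₀ q : K) :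
    bx L H M f₀ (c • q) = bx L H M f₀ q := by
  rw [bx, bx]
  exact iSup_congr fun i => by rw [bi_smul hc]

/-- `b_x(g') = b_x(g)`. -/
theorem bx_linS {n : ℕ} (q : K [⋀^Fin (n + 1)]→ₗ[k] K) {A : Matrix (Fin n) (Fin n) k}
    (hA : A.det ≠ 0) (g : Fin (n + 1) → K) (L H : Submodule k K) (M : ℕ) (f₀ : K) :
    bx L H M f₀ (q (linS A g)) = bx L H M f₀ (q g) := by
  rw [alt_linS, bx_smul hA]

/-- The tuples `tup f₀ e c` are stable: `g' = tup f₀ e c'`. -/
theorem linS_tup {n h : ℕ} (A : Matrix (Fin n) (Fin n) k) (f₀ : K) (e : Fin h → K)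
    (c : Fin (n + 1) × Fin h → k) :
    linS A (tup f₀ e c) = tup f₀ e fun p => (Fin.cons (c (0, p.2))
      (lin A fun i => c (i.succ, p.2)) : Fin (n + 1) → k) p.1 := by
  funext i
  refine Fin.cases ?_ (fun i => ?_) i
  · rfl
  · rw [linS_succ, lin_apply]
    simp only [tup, Fin.succ_ne_zero, if_false, zero_add, Fin.cons_succ, lin_apply]
    simp only [Finset.smul_sum, smul_smul, Finset.sum_smul, smul_eq_mul]
    rw [Finset.sum_comm]

end Bx

/-! ### (ii) Algebras and fields generated -/

section Adj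

variable {ι : Type*} [Fintype ι] [DecidableEq ι]

theorem adjoin_lin {A : Matrix ι ι k} (hA : A.det ≠ 0) (u : ι → K) :
    Algebra.adjoin k (Set.range (lin A u)) = Algebra.adjoin k (Set.range u) := by
  rw [← Algebra.adjoin_span (R := k) (s := Set.range (lin A u)), span_lin hA,
    Algebra.adjoin_span]

theorem ifadjoin_lin {A : Matrix ι ι k} (hA : A.det ≠ 0) (u : ι → K) :
    IntermediateField.adjoin k (Set.range (lin A u)) =
      IntermediateField.adjoin k (Set.range u) := by
  have key : ∀ (B : Matrix ι ι k) (w : ι → K), IntermediateField.adjoin k (Set.range (lin B w)) ≤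
      IntermediateField.adjoin k (Set.range w) := by
    intro B w
    rw [IntermediateField.adjoin_le_iff]
    rintro _ ⟨i, rfl⟩
    exact lin_mem (P := Subalgebra.toSubmodule
      (IntermediateField.adjoin k (Set.range w)).toSubalgebra) B
      (fun j => IntermediateField.subset_adjoin _ _ (Set.mem_range_self j)) i
  refine le_antisymm (key A u) ?_
  conv_lhs => rw [← lin_inv hA u]
  exact key _ _

/-- Algebraic independence. -/
theorem algInd_lin {A : Matrix ι ι k} (hA : A.det ≠ 0) {u : ι → K}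
    (hu : AlgebraicIndependent k u) : AlgebraicIndependent k (lin A u) := by
  let φ : MvPolynomial ι k →ₐ[k] MvPolynomial ι k := MvPolynomial.aeval (lin A MvPolynomial.X)
  let ψ : MvPolynomial ι k →ₐ[k] MvPolynomial ι k := MvPolynomial.aeval (lin A⁻¹ MvPolynomial.X)
  have h1 : ψ.comp φ = AlgHom.id k _ := by
    refine MvPolynomial.algHom_ext fun i => ?_
    have h2 : φ (MvPolynomial.X i) = lin A MvPolynomial.X i := by
      rw [MvPolynomial.aeval_X]
    rw [AlgHom.comp_apply, h2]
    have h3 : ψ (lin A MvPolynomial.X i) = lin A (fun j => ψ (MvPolynomial.X j)) i :=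
      congrFun (lin_map ψ.toLinearMap A MvPolynomial.X) i
    have h4 : (fun j => ψ (MvPolynomial.X j)) = lin A⁻¹ MvPolynomial.X := by
      funext j
      rw [MvPolynomial.aeval_X]
    rw [h3, h4, ← lin_mul, Matrix.mul_nonsing_inv _ (isUnit_iff_ne_zero.2 hA), lin_one]
    rfl
  have hφ : Function.Injective φ := by
    intro x y hxy
    have := congrArg ψ hxy
    rw [← AlgHom.comp_apply, ← AlgHom.comp_apply, h1] at this
    exact this
  have h5 : (MvPolynomial.aeval (lin A u) : MvPolynomial ι k →ₐ[k] K) =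
      (MvPolynomial.aeval u).comp φ := by
    refine MvPolynomial.algHom_ext fun i => ?_
    have h2 : φ (MvPolynomial.X i) = lin A MvPolynomial.X i := by
      rw [MvPolynomial.aeval_X]
    rw [MvPolynomial.aeval_X, AlgHom.comp_apply, h2]
    have h3 : (MvPolynomial.aeval u : MvPolynomial ι k →ₐ[k] K) (lin A MvPolynomial.X i) =
        lin A (fun j => (MvPolynomial.aeval u : MvPolynomial ι k →ₐ[k] K) (MvPolynomial.X j)) i :=
      congrFun (lin_map (MvPolynomial.aeval u : MvPolynomial ι k →ₐ[k] K).toLinearMap A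
        MvPolynomial.X) i
    rw [h3]
    congr 1
    funext j
    rw [MvPolynomial.aeval_X]
  change Function.Injective (MvPolynomial.aeval (lin A u) : MvPolynomial ι k →ₐ[k] K)
  rw [h5]
  exact Function.Injective.comp (g := (MvPolynomial.aeval u : MvPolynomial ι k →ₐ[k] K)) hu hφ

end Adj

/-! ### (iii), (iv) Jacobians and the ramification divisor -/

section Jac

variable {n : ℕ}

theorem jac_lin (d : Fin n → Derivation k K K) (A : Matrix (Fin n) (Fin n) k) (u : Fin n → K) :
    jac d (lin A u) = algebraMap k K A.det * jac d u := by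
  have h1 : (Matrix.of fun i j => d i (lin A u j)) =
      (Matrix.of fun i j => d i (u j)) * (A.map (algebraMap k K)).transpose := by
    ext i j
    rw [Matrix.of_apply, Matrix.mul_apply, lin_apply, map_sum]
    refine Finset.sum_congr rfl fun l _ => ?_
    rw [Matrix.of_apply, Matrix.transpose_apply, Matrix.map_apply, Derivation.map_smul,
      Algebra.smul_def, mul_comm]
  rw [jac, h1, Matrix.det_mul, Matrix.det_transpose, jac, mul_comm]
  congr 1
  rw [← RingHom.mapMatrix_apply, ← RingHom.map_det]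

theorem jac_lin_ne {d : Fin n → Derivation k K K} {A : Matrix (Fin n) (Fin n) k}
    (hA : A.det ≠ 0) {u : Fin n → K} (h : jac d u ≠ 0) : jac d (lin A u) ≠ 0 := by
  rw [jac_lin]
  exact mul_ne_zero ((map_ne_zero _).2 hA) h

variable {O : Subring K} {ord : K → ℤ}

theorem ord_const (hO : IsOrd O ord) (hk : ∀ c : k, algebraMap k K c ∈ O) {c : k} (hc : c ≠ 0) :
    ord (algebraMap k K c) = 0 := by
  have h0 : algebraMap k K c ≠ 0 := (map_ne_zero _).2 hc
  have h0' : algebraMap k K c⁻¹ ≠ 0 := (map_ne_zero _).2 (inv_ne_zero hc)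
  have h1 := (hO.mem _ h0).1 (hk c)
  have h2 := (hO.mem _ h0').1 (hk c⁻¹)
  have h3 := hO.mul _ _ h0 h0'
  rw [← map_mul, mul_inv_cancel₀ hc, map_one] at h3
  have h4 := hO.mul 1 1 one_ne_zero one_ne_zero
  rw [mul_one] at h4
  omega

/-- `R_(u') = R_u`. -/
theorem rram_lin (hO : IsOrd O ord) (hk : ∀ c : k, algebraMap k K c ∈ O)
    {A : Matrix (Fin n) (Fin n) k} (hA : A.det ≠ 0) (u : Fin n → K) :
    rram k O ord (lin A u) = rram k O ord u := by
  unfold rram
  congr 1
  ext m
  refine exists_congr fun d => and_congr Iff.rfl ?_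
  have h0 : algebraMap k K A.det ≠ 0 := (map_ne_zero _).2 hA
  rw [jac_lin]
  constructor
  · rintro ⟨h1, h2⟩
    have h3 := right_ne_zero_of_mul h1
    refine ⟨h3, ?_⟩
    rwa [hO.mul _ _ h0 h3, ord_const hO hk hA, zero_add] at h2
  · rintro ⟨h1, h2⟩
    refine ⟨mul_ne_zero h0 h1, ?_⟩
    rwa [hO.mul _ _ h0 h1, ord_const hO hk hA, zero_add]

theorem hasD_lin {A : Matrix (Fin n) (Fin n) k} (hA : A.det ≠ 0) {u : Fin n → K} :
    HasD k O (lin A u) ↔ HasD k O u := by
  refine exists_congr fun d => and_congr Iff.rfl ?_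
  rw [jac_lin]
  exact ⟨right_ne_zero_of_mul, mul_ne_zero ((map_ne_zero _).2 hA)⟩

end Jac

end Pool.Agent.TGBC32
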